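import Pool.Agent.H245.SK.Z7

/-!
# The `C^r` stability conjecture for products with a transverse homoclinic point

`V n = ℝⁿ`, `DiffM n N r` is `Diff^r(N)`, `strongTop n N r` is its strong (Whitney) `C^r` topology (the
usual one, `N` being compact) (library, `H718R2/G0.lean`). `OmegaStable n N r F`: all diffeomorphisms
of a neighbourhood of `F` in `Diff^r(N)` are conjugate to `F` on the nonwandering sets
(`TH80/OMS/Defs.lean`). `Per F`: the periodic points; `IsHyperbolicPer n F p`: `p` is a periodic point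
of `F` and `DF^m(p)` has no eigenvalue of modulus one for every period `m` (`Y504/CO/Stm.lean`).
`Q263.HS.IsHyp (V n) F Λ`: `Λ` is a hyperbolic set of `F`. `Q263.HS.AxiomA (V n) F`: the nonwandering
set `Ω(F)` is hyperbolic and is contained in the closure of the set of the periodic points
(`Q263/HS/Def.lean`). `NoCycle F`, `Omega F`, `ChainRec F`: the no-cycle property, the nonwandering
set, the chain recurrent set (`H728R2/OS/Defs.lean`).

Proof. Near a transverse homoclinic orbit of `g` there are periodic orbits which pass near the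
homoclinic point `z` at prescribed times, which are multiples of the period of `p` and far from each
other, and only at these times (`SK/Z3`, `SK/Z4`). Perturbations of `f` may depend on the point of the
second factor; so `g` can be used to decide at which times one of finitely many small pushes is
applied; loops of `f` of a length which is not a multiple of the period are repeated (`SK/Z1`,
`SK/Z2`). So along closed pseudo-orbits of `f` with a bounded number of kinds of jumps, products of the
derivatives with perturbations at the jumps have no eigenvalue of modulus one, and by scaling a gap at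
the unit circle which is exponential in the number of the jumps (`SK/S1`, `SK/S2`). This implies
uniform hyperbolicity of closed pseudo-orbits (`SK/S3` to `SK/S7`), Axiom A, and that the points on
cycles are limits of periodic points (`SH/Y8` to `SH/Y11`, `SK/S8`). If `Ω(f)` is infinite, then it
contains infinitely many periodic points, and by shadowing and expansivity a transverse homoclinic
point (`SK/Z5`, `SK/Z6`). So the factors may be interchanged.
-/

set_option autoImplicit false

open scoped Manifold ContDiff Topology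
open Filter Set Metric

universe u v w

namespace Pool.Agent.Results.MP_4a0782_an.ProductsWithHomoclinicPoints

open Pool.Agent.H718R2.G Pool.Agent.TH80.OMS Pool.Agent.Y504.CO Pool.Agent.H245.SH
  Pool.Agent.H245.SK

/-- `F` is a star diffeomorphism in `Diff^r(N)`: all periodic points of all diffeomorphisms of some
neighbourhood of `F` in `Diff^r(N)` are hyperbolic. -/
def StarDiffeo (n : ℕ) (N : Type u) [TopologicalSpace N] [ChartedSpace (V n) N] (r : ℕ∞)
    (F : DiffM n N r) : Prop :=
  ∃ U : Set (DiffM n N r), IsOpen[strongTop n N r] U ∧ F ∈ U ∧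
    ∀ G ∈ U, ∀ p ∈ Per G, IsHyperbolicPer n G p

/-- `F` as a homeomorphism -/
noncomputable def hom {n : ℕ} {N : Type u} [TopologicalSpace N] [ChartedSpace (V n) N] {r : ℕ∞}
    (F : DiffM n N r) : N ≃ₜ N := F.toHomeomorph

/-- `z` is a transverse homoclinic point of the periodic point `p` of `g`: `z ≠ p`,
`d(g^n(z), g^n(p)) → 0` for `n → ∞` and for `n → -∞`, and `z` and `p` belong to the hyperbolic set
`Λ` of `g`. -/
def TransHomoclinic {k : ℕ} {Y : Type w} [MetricSpace Y] [ChartedSpace (V k) Y]
    [IsManifold (𝓡 k) ∞ Y] {r : ℕ∞} (g : DiffM k Y r) (Λ : Set Y) (p z : Y) : Prop :=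
  Q263.HS.IsHyp (V k) (hom g) Λ ∧ p ∈ Λ ∧ z ∈ Λ ∧ (∃ π : ℕ, 1 ≤ π ∧ (hom g)^[π] p = p) ∧ z ≠ p ∧
    Tendsto (fun n : ℕ => dist ((hom g)^[n] z) ((hom g)^[n] p)) atTop (𝓝 0) ∧
    Tendsto (fun n : ℕ => dist ((hom g).symm^[n] z) ((hom g).symm^[n] p)) atTop (𝓝 0)

/-- `Θ` is a `C^∞` diffeomorphism of `M × Y` onto an open subset of `N`. -/
def OpenProduct (m k n : ℕ) {M : Type v} [TopologicalSpace M] [ChartedSpace (V m) M]
    {Y : Type w} [TopologicalSpace Y] [ChartedSpace (V k) Y]
    {N : Type u} [TopologicalSpace N] [ChartedSpace (V n) N] (Θ : M × Y → N) : Prop :=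
  IsLocalDiffeomorph ((𝓡 m).prod (𝓡 k)) (𝓡 n) ∞ Θ ∧ Function.Injective Θ

/-- `F(Θ(x, y)) = Θ(f(x), g(y))` for all `x` and all `y ∈ K`. -/
def ProductOver {m k n : ℕ} {M : Type v} [TopologicalSpace M] [ChartedSpace (V m) M]
    {Y : Type w} [TopologicalSpace Y] [ChartedSpace (V k) Y] {N : Type u} [TopologicalSpace N]
    [ChartedSpace (V n) N] {r : ℕ∞} (f : DiffM m M r) (g : DiffM k Y r) (K : Set Y)
    (Θ : M × Y → N) (F : DiffM n N r) : Prop :=
  ∀ x, ∀ y ∈ K, hom F (Θ (x, y)) = Θ (hom f x, hom g y)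

/-- `F` satisfies Axiom A and has no cycles. -/
def AxiomANoCycle {n : ℕ} {N : Type u} [MetricSpace N] [ChartedSpace (V n) N]
    [IsManifold (𝓡 n) ∞ N] {r : ℕ∞} (F : DiffM n N r) : Prop :=
  Q263.HS.AxiomA (V n) (hom F) ∧ Pool.Agent.H728R2.OS.NoCycle (hom F)

/-- **The `C^r` stability conjecture for products with a transverse homoclinic point.** Let
`2 ≤ r ≤ ∞`, let `f` and `g` be `C^r` diffeomorphisms of closed manifolds `M` and `Y`, let `g` have a
transverse homoclinic point `z` (of some periodic point `p`; `z` and `p` in the hyperbolic set `Λ`),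
and let `K` be a neighbourhood of `Λ` (for example `K = Y`). Let `N` be a closed manifold,
`F ∈ Diff^r(N)`, and let `Θ` be a smooth diffeomorphism of `M × Y` onto an open subset of `N` with
`F(Θ(x, y)) = Θ(f(x), g(y))` for `x ∈ M` and `y ∈ K`. Assume that `F` is `Ω`-stable, or only that `F`
is a star diffeomorphism in `Diff^r(N)`. Then `f` satisfies Axiom A and has no cycles.

Let moreover `F` be the product `f × g`, that is `Θ` is onto and `K = Y`. If the nonwandering set of
`f` is infinite, or if `g` satisfies Axiom A and `CR(g) = Ω(g)`, then `g` and `F` satisfy Axiom A and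
have no cycles. -/
theorem result {m k n : ℕ} {M : Type v} [MetricSpace M] [CompactSpace M] [ChartedSpace (V m) M]
    [IsManifold (𝓡 m) ∞ M] {Y : Type w} [MetricSpace Y] [CompactSpace Y]
    [ChartedSpace (V k) Y] [IsManifold (𝓡 k) ∞ Y] {N : Type u} [MetricSpace N] [CompactSpace N]
    [ChartedSpace (V n) N] [IsManifold (𝓡 n) ∞ N] (r : ℕ∞) (hr : 2 ≤ r) (f : DiffM m M r)
    (g : DiffM k Y r) (Λ K : Set Y) (p z : Y) (hg : TransHomoclinic g Λ p z) (hK : K ∈ 𝓝ˢ Λ)
    (Θ : M × Y → N) (hΘ : OpenProduct m k n Θ) (F : DiffM n N r) (hF : ProductOver f g K Θ F)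
    (hst : OmegaStable n N r F ∨ StarDiffeo n N r F) :
    AxiomANoCycle f ∧ (Function.Surjective Θ → K = univ →
      ((Pool.Agent.H728R2.OS.Omega (hom f)).Infinite ∨ (Q263.HS.AxiomA (V k) (hom g) ∧
        Pool.Agent.H728R2.OS.ChainRec (hom g) = Pool.Agent.H728R2.OS.Omega (hom g))) →
      AxiomANoCycle g ∧ AxiomANoCycle F) := by
  have hr1 : (1 : ℕ∞) ≤ r := le_trans (by norm_num) hr
  have hr1' : ((1 : ℕ∞) : WithTop ℕ∞) ≤ ((r : ℕ∞) : WithTop ℕ∞) := by exact_mod_cast hr1
  have hcs : CStar n N r F := by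
    rcases hst with hst | ⟨U, hU, hFU, hper⟩
    · exact cstar_of_stable hr1 hst
    · exact ⟨U, hU, hFU, fun G hG p hp => Eig2.hypAt_of (hper G hG p hp)⟩
  obtain ⟨hhyp, hp, hz, ⟨π, hπ, hpp⟩, hne, hl1, hl2⟩ := hg
  have hpp' : (hom g).symm^[π] p = p := by
    have h1 := (Function.LeftInverse.iterate ((hom g).symm_apply_apply) π) p
    rw [hpp] at h1
    exact h1
  have hsp : SpK (hom g) K := spK_of_homoclinic (hom g) (g.contMDiff.of_le hr1')
    (g.symm.contMDiff.of_le hr1') hhyp hp hz hπ hpp hne (tendsto_of_dist hπ hpp hl1)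
    (tendsto_of_dist hπ hpp' hl2) hK
  obtain ⟨h1, h2, h3⟩ := one_factorK hr f (hom g).continuous hsp hΘ.1 hΘ.2 F hF hcs
  refine ⟨⟨h1, h2⟩, fun hsurj hK' hor => ?_⟩
  have hF' : ∀ x y, F (Θ (x, y)) = Θ (f x, g y) := fun x y => hF x y (by rw [hK']; exact mem_univ y)
  have hg3 : Q263.HS.AxiomA (V k) g.toHomeomorph ∧
      Pool.Agent.H728R2.OS.NoCycle g.toHomeomorph ∧ CycPer g.toHomeomorph := by
    rcases hor with hinf | ⟨hA, hCR⟩
    · have hspf : SpK (hom f) univ := spK_of_axiomA (hom f) (f.contMDiff.of_le hr1')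
        (f.symm.contMDiff.of_le hr1') h1.1 h1.2 hinf
      exact two_factorsK hr f g hspf hΘ.1 hΘ.2 hsurj F hF' hcs
    · have hc : CycPer (hom g) := cycPer_of_chain (by rw [hCR]; exact hA.2)
      exact ⟨hA, u3_of_cycPer hA hc, hc⟩
  exact ⟨⟨hg3.1, hg3.2.1⟩, product_u3 hr1 f g hΘ.1 hΘ.2 hsurj F hF' h1 hg3.1 h3 hg3.2.2⟩

end Pool.Agent.Results.MP_4a0782_an.ProductsWithHomoclinicPoints
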